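import Pool.Agent.N407.SZ_GLOWQ

/-!
# Project NT (helper906), GLOWN: the prime numbers from below (helper340)
-/

set_option autoImplicit false

namespace Pool.Agent.N340.NT

open Finset Filter Topology
open Pool.Agent.N42.RSA (PITn cf Ls mem_Ls card_Ls blk small)

section primes

variable {ι : Type} {N : ι → ℝ}

/-- the sum of the `1 / (N log^r N)` -/
noncomputable def hs (hP : PITn N) (r : ℕ) (T : ℝ) : ℝ :=
  ∑ v ∈ Ls hP T, 1 / (N v * Real.log (N v) ^ r)

theorem hs_step (hP : PITn N) (h2 : ∀ v, 2 ≤ N v) (r : ℕ) {T T' : ℝ} (hT : T ≤ T') :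
    (cf N T' - cf N T) * (1 / (T' * Real.log T' ^ r)) ≤ hs hP r T' - hs hP r T := by
  classical
  have hsub : Ls hP T ⊆ Ls hP T' := fun v hv => (mem_Ls hP).2 (((mem_Ls hP).1 hv).trans hT)
  have h3 : hs hP r T' - hs hP r T =
      ∑ v ∈ Ls hP T' \ Ls hP T, 1 / (N v * Real.log (N v) ^ r) := by
    rw [hs, hs, ← sum_sdiff hsub]
    ring
  have h4 : cf N T' - cf N T = ((Ls hP T' \ Ls hP T).card : ℝ) := by
    rw [card_sdiff_of_subset hsub, Nat.cast_sub (card_le_card hsub), card_Ls, card_Ls]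
  rw [h3, h4, ← nsmul_eq_mul]
  refine card_nsmul_le_sum _ _ _ fun v hv => ?_
  have h5 : N v ≤ T' := (mem_Ls hP).1 (mem_sdiff.1 hv).1
  have h6 := h2 v
  have h7 : 0 < Real.log (N v) := Real.log_pos (by linarith)
  have h8 : Real.log (N v) ≤ Real.log T' := Real.log_le_log (by linarith) h5
  exact one_div_le_one_div_of_le (by positivity)
    (mul_le_mul h5 (pow_le_pow_left₀ h7.le h8 r) (by positivity) (by linarith))

theorem bern {b h : ℝ} (hb : 0 < b) (hh : 0 ≤ h) (r : ℕ) :
    1 / b ^ r - 1 / (b + h) ^ r ≤ r * h / b ^ (r + 1) := by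
  have hbh : 0 < b + h := by linarith
  have h1 : -2 ≤ -(h / (b + h)) := by
    have : h / (b + h) ≤ 1 := by
      rw [div_le_one hbh]
      linarith
    linarith
  have h2 := one_add_mul_le_pow h1 r
  have h3 : 1 + -(h / (b + h)) = b / (b + h) := by
    field_simp
    ring
  rw [h3, div_pow] at h2
  have h4 : h / (b + h) ≤ h / b := div_le_div_of_nonneg_left hh hb (by linarith)
  have h5 : 1 - r * (h / b) ≤ b ^ r / (b + h) ^ r := by
    have : (r : ℝ) * (h / (b + h)) ≤ r * (h / b) := mul_le_mul_of_nonneg_left h4 (Nat.cast_nonneg r)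
    linarith
  have h6 : (1 - r * (h / b)) / b ^ r ≤ 1 / (b + h) ^ r := by
    rw [div_le_iff₀ (by positivity)]
    calc 1 - r * (h / b) ≤ b ^ r / (b + h) ^ r := h5
      _ = _ := by ring
  have h7 : (1 - r * (h / b)) / b ^ r = 1 / b ^ r - r * h / b ^ (r + 1) := by
    field_simp
    ring
  rw [h7] at h6
  linarith

theorem hs_low (hP : PITn N) (h2 : ∀ v, 2 ≤ N v) {r : ℕ} (hr : 1 ≤ r) {lam η T₀ : ℝ}
    (hl : 1 < lam) (hη : η < 1) (hT₀ : 3 ≤ T₀) (hb : ∀ T, T₀ ≤ T →
      (1 - η) * (lam - 1) * (T / Real.log T) ≤ cf N (lam * T) - cf N T) {V : ℝ} (hV : T₀ ≤ V)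
    (m : ℕ) : (1 - η) * (lam - 1) / (lam * (r * Real.log lam)) *
      (1 / (Real.log V + Real.log lam) ^ r - 1 / (Real.log V + (m + 1) * Real.log lam) ^ r) ≤
        hs hP r (V * lam ^ m) - hs hP r V := by
  have hll : 0 < Real.log lam := Real.log_pos hl
  have hr0 : (0 : ℝ) < r := by exact_mod_cast hr
  induction m with
  | zero => simp
  | succ m ih =>
    obtain ⟨T, hTd⟩ : ∃ T, T = V * lam ^ m := ⟨_, rfl⟩
    have hlm : (1 : ℝ) ≤ lam ^ m := one_le_pow₀ hl.le
    have hT : T₀ ≤ T := by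
      rw [hTd]
      nlinarith
    have e : V * lam ^ (m + 1) = lam * T := by rw [hTd]; ring
    rw [e]
    rw [← hTd] at ih
    have h3 := hb T hT
    have hTT : T ≤ lam * T := by nlinarith
    have h4 := hs_step hP h2 r hTT
    have hlT : 0 < Real.log T := Real.log_pos (by linarith)
    have hlT' : Real.log (lam * T) = Real.log lam + Real.log T :=
      Real.log_mul (by positivity) (by linarith)
    have hT0 : 0 < T := by linarith
    have hlT1 : Real.log T = Real.log V + m * Real.log lam := by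
      rw [hTd, Real.log_mul (by linarith) (by positivity), Real.log_pow]
    obtain ⟨b, hbd⟩ : ∃ b, b = Real.log (lam * T) := ⟨_, rfl⟩
    have hb0 : 0 < b := by rw [hbd, hlT']; positivity
    have hbe : Real.log V + (m + 1) * Real.log lam = b := by
      rw [hbd, hlT', hlT1]
      ring
    have hbe2 : Real.log V + ((m + 1 : ℕ) + 1) * Real.log lam = b + Real.log lam := by
      rw [← hbe]
      push_cast
      ring
    rw [hbe] at ih
    rw [hbe2]
    rw [← hbd] at h4
    obtain ⟨c, hc⟩ : ∃ c, c = (1 - η) * (lam - 1) := ⟨_, rfl⟩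
    have hc0 : 0 < c := by
      rw [hc]
      exact mul_pos (by linarith) (by linarith)
    rw [← hc] at ih h3 ⊢
    have h5 : c / (lam * (r * Real.log lam)) * (1 / b ^ r - 1 / (b + Real.log lam) ^ r) ≤
        c * (T / Real.log T) * (1 / (lam * T * b ^ r)) := by
      have h6 := bern hb0 hll.le r
      calc c / (lam * (r * Real.log lam)) * (1 / b ^ r - 1 / (b + Real.log lam) ^ r)
          ≤ c / (lam * (r * Real.log lam)) * (r * Real.log lam / b ^ (r + 1)) :=
            mul_le_mul_of_nonneg_left h6 (by positivity)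
        _ = c / lam / b ^ r * (1 / b) := by
            rw [pow_succ]
            field_simp
        _ ≤ c / lam / b ^ r * (1 / Real.log T) := by
            apply mul_le_mul_of_nonneg_left _ (by positivity)
            apply one_div_le_one_div_of_le hlT
            rw [hbd, hlT']
            linarith
        _ = _ := by
            field_simp
    have h7 : c * (T / Real.log T) * (1 / (lam * T * b ^ r)) ≤
        (cf N (lam * T) - cf N T) * (1 / (lam * T * b ^ r)) :=
      mul_le_mul_of_nonneg_right h3 (by positivity)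
    have h8 : c / (lam * (r * Real.log lam)) *
        (1 / (Real.log V + Real.log lam) ^ r - 1 / (b + Real.log lam) ^ r) =
        c / (lam * (r * Real.log lam)) *
          (1 / (Real.log V + Real.log lam) ^ r - 1 / b ^ r) +
        c / (lam * (r * Real.log lam)) * (1 / b ^ r - 1 / (b + Real.log lam) ^ r) := by ring
    rw [h8]
    linarith

end primes

theorem primes_low {r : ℕ} (hr : 1 ≤ r) {ρ η δ M : ℝ} (hρ : (r : ℝ) < ρ) (hη : 0 < η)
    (hη1 : η < 1 / 2) (hδ : 0 < δ) (hM : 0 < M) :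
    ∃ u₀ : ℝ, 0 < u₀ ∧ u₀ < 1 / 2 ∧ ∀ u : ℝ, 0 < u → u < u₀ → ∃ s : Finset ℕ,
      (∀ p ∈ s, p.Prime ∧ u ^ (-ρ) ≤ (p : ℝ) ∧ M ≤ p * u ^ r ∧ u * Real.log p ≤ δ ∧
        1 ≤ Real.log p) ∧
      (1 - 4 * η) / (r * (ρ * Real.log (1 / u)) ^ r) ≤
        ∑ p ∈ s, 1 / ((p : ℝ) * Real.log p ^ r) := by
  classical
  have hr1 : (1 : ℝ) ≤ r := by exact_mod_cast hr
  have hr0 : (0 : ℝ) < r := by linarith
  have hρ1 : 1 < ρ := by linarith
  have h2 : ∀ v : Nat.Primes, (2 : ℝ) ≤ ((v : ℕ) : ℝ) := fun v => by exact_mod_cast v.2.two_le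
  have hP := Pool.Agent.N407.SZ.pnt
  obtain ⟨lam, hlam⟩ : ∃ lam, lam = 1 + η := ⟨_, rfl⟩
  have hl : 1 < lam := by rw [hlam]; linarith
  obtain ⟨T₀, hT₀, hb⟩ := blk hP (fun v => ⟨v, rfl⟩) hl (η := η) hη
  obtain ⟨u₀, hu₀, hu₀2, hsm⟩ := small
    (L := max (max (r : ℝ) (Real.log T₀)) (Real.log M / (ρ - r))) (κ := δ * η / (3 * ρ))
    (by positivity)
  refine ⟨u₀, hu₀, hu₀2, fun u hu huu => ?_⟩
  obtain ⟨hL, hul⟩ := hsm u hu huu
  obtain ⟨l, hld⟩ : ∃ l, l = Real.log (1 / u) := ⟨_, rfl⟩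
  rw [← hld] at hL hul ⊢
  have hL1 : r ≤ l := le_trans (le_max_left _ _) (le_trans (le_max_left _ _) hL)
  have hL2 : Real.log T₀ ≤ l := le_trans (le_max_right _ _) (le_trans (le_max_left _ _) hL)
  have hL3 : Real.log M ≤ (ρ - r) * l := by
    have h := le_trans (le_max_right _ _) hL
    rw [div_le_iff₀ (by linarith)] at h
    linarith
  have hl0 : 0 < l := by linarith
  have hlu : Real.log u = -l := by rw [hld, one_div, Real.log_inv, neg_neg]
  have hu1 : u = Real.exp (-l) := by rw [← hlu, Real.exp_log hu]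
  obtain ⟨V, hVd⟩ : ∃ V, V = u ^ (-ρ) := ⟨_, rfl⟩
  rw [← hVd]
  have hVe : V = Real.exp (ρ * l) := by
    rw [hVd, Real.rpow_def_of_pos hu, hlu]
    congr 1
    ring
  have hlV : Real.log V = ρ * l := by rw [hVe, Real.log_exp]
  have hV0 : 0 < V := by rw [hVe]; exact Real.exp_pos _
  have hρl : l ≤ ρ * l := le_mul_of_one_le_left hl0.le hρ1.le
  have hVT : T₀ ≤ V := by
    have h3 : Real.log T₀ ≤ Real.log V := by
      rw [hlV]
      linarith
    exact (Real.log_le_log_iff (by linarith) hV0).1 h3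
  have hVu : M ≤ V * u ^ r := by
    have h3 : V * u ^ r = Real.exp ((ρ - r) * l) := by
      rw [hVe, hu1, ← Real.exp_nat_mul, ← Real.exp_add]
      congr 1
      ring
    rw [h3, ← Real.exp_log hM]
    exact Real.exp_le_exp.2 hL3
  obtain ⟨h, hh⟩ : ∃ h, h = Real.log lam := ⟨_, rfl⟩
  have hh0 : 0 < h := by rw [hh]; exact Real.log_pos hl
  have hhη : h ≤ η := by
    have := Real.log_le_sub_one_of_pos (show 0 < lam by linarith)
    rw [hh]
    rw [hlam] at this ⊢
    linarith
  obtain ⟨A, hA⟩ : ∃ A, A = ρ * l := ⟨_, rfl⟩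
  have hA1 : r ≤ A := by rw [hA]; linarith
  have hA0 : 0 < A := by linarith
  obtain ⟨m, hm⟩ : ∃ m : ℕ, m = ⌈A / η / h⌉₊ := ⟨_, rfl⟩
  have hm1 : A / η ≤ m * h := by
    rw [← div_le_iff₀ hh0, hm]
    exact Nat.le_ceil _
  have hm2 : m * h ≤ A / η + h := by
    have h3 := (Nat.ceil_lt_add_one (show 0 ≤ A / η / h by positivity)).le
    rw [← hm] at h3
    calc (m : ℝ) * h ≤ (A / η / h + 1) * h := mul_le_mul_of_nonneg_right h3 hh0.le
      _ = A / η + h := by field_simp
  obtain ⟨W, hWd⟩ : ∃ W, W = V * lam ^ m := ⟨_, rfl⟩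
  have hlW : Real.log W = A + m * h := by
    rw [hWd, Real.log_mul hV0.ne' (by positivity), Real.log_pow, hlV, hh, hA]
  have hAη : A ≤ A / η := by
    rw [le_div_iff₀ hη]
    nlinarith
  have hlW2 : Real.log W ≤ 3 * A / η := by
    rw [hlW]
    have h3 : 3 * A / η = A / η + A / η + A / η := by ring
    rw [h3]
    linarith
  have huW : u * Real.log W ≤ δ := by
    calc u * Real.log W ≤ u * (3 * A / η) := mul_le_mul_of_nonneg_left hlW2 hu.le
      _ = (u * l) * (3 * ρ / η) := by rw [hA]; ring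
      _ ≤ (δ * η / (3 * ρ)) * (3 * ρ / η) := mul_le_mul_of_nonneg_right hul (by positivity)
      _ = δ := by field_simp
  have hWV : V ≤ W := by
    rw [hWd]
    exact le_mul_of_one_le_right hV0.le (one_le_pow₀ hl.le)
  have hlow := hs_low hP h2 hr hl (by linarith) hT₀ hb hVT m
  rw [← hWd, ← hh, hlV, ← hA] at hlow
  have hsub : Ls hP V ⊆ Ls hP W := fun v hv => (mem_Ls hP).2 (((mem_Ls hP).1 hv).trans hWV)
  have h3 : hs hP r W - hs hP r V =
      ∑ v ∈ Ls hP W \ Ls hP V, 1 / (((v : ℕ) : ℝ) * Real.log ((v : ℕ) : ℝ) ^ r) := by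
    rw [hs, hs, ← sum_sdiff hsub]
    ring
  refine ⟨(Ls hP W \ Ls hP V).image (fun v : Nat.Primes => (v : ℕ)), ?_, ?_⟩
  · intro p hp
    rw [mem_image] at hp
    obtain ⟨v, hv, rfl⟩ := hp
    have h4 := (mem_sdiff.1 hv).2
    rw [mem_Ls, not_le] at h4
    have h5 : ((v : ℕ) : ℝ) ≤ W := (mem_Ls hP).1 (mem_sdiff.1 hv).1
    have h6 : Real.log ((v : ℕ) : ℝ) ≤ Real.log W := Real.log_le_log (by linarith [h2 v]) h5
    refine ⟨v.2, h4.le, ?_, ?_, ?_⟩
    · exact hVu.trans (mul_le_mul_of_nonneg_right h4.le (by positivity))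
    · exact (mul_le_mul_of_nonneg_left h6 hu.le).trans huW
    · have h7 := Real.log_le_log hV0 h4.le
      rw [hlV, ← hA] at h7
      linarith
  · have himg := Finset.sum_image (f := fun p : ℕ => 1 / ((p : ℝ) * Real.log p ^ r))
      (s := Ls hP W \ Ls hP V) (g := fun v : Nat.Primes => (v : ℕ))
      (fun v _ w _ h => Subtype.ext h)
    rw [himg, ← h3]
    refine le_trans ?_ hlow
    have b1 : (1 - η) / A ^ r ≤ 1 / (A + h) ^ r := by
      have h4 := bern hA0 hh0.le r
      have h5 : r * h / A ^ (r + 1) ≤ η / A ^ r := by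
        rw [pow_succ, div_le_div_iff₀ (by positivity) (by positivity)]
        have h6 : r * h ≤ η * A := by
          calc r * h ≤ A * η := mul_le_mul hA1 hhη hh0.le hA0.le
            _ = _ := by ring
        calc r * h * A ^ r ≤ η * A * A ^ r := mul_le_mul_of_nonneg_right h6 (by positivity)
          _ = _ := by ring
      have h6 : (1 - η) / A ^ r = 1 / A ^ r - η / A ^ r := by ring
      rw [h6]
      linarith
    have b2 : 1 / (A + (m + 1) * h) ^ r ≤ η / A ^ r := by
      have h4 : A / η ≤ A + (m + 1) * h := by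
        have : (m + 1) * h = m * h + h := by ring
        rw [this]
        linarith
      have h5 : (A / η) ^ r ≤ (A + (m + 1) * h) ^ r := pow_le_pow_left₀ (by positivity) h4 r
      have h6 : 1 / (A + (m + 1) * h) ^ r ≤ 1 / (A / η) ^ r :=
        one_div_le_one_div_of_le (by positivity) h5
      refine h6.trans ?_
      rw [div_pow, one_div_div]
      apply div_le_div_of_nonneg_right _ (by positivity)
      exact pow_le_of_le_one hη.le (by linarith) (by omega)
    have b3 : (1 - 2 * η) / A ^ r ≤ 1 / (A + h) ^ r - 1 / (A + (m + 1) * h) ^ r := by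
      have h6 : (1 - 2 * η) / A ^ r = (1 - η) / A ^ r - η / A ^ r := by ring
      rw [h6]
      linarith
    have b4 : (1 - η) ^ 2 / r ≤ (1 - η) * (lam - 1) / (lam * (r * h)) := by
      rw [div_le_div_iff₀ hr0 (by positivity)]
      have h4 : (1 - η) * lam ≤ 1 := by rw [hlam]; nlinarith
      have h5 : (1 - η) * lam * h ≤ 1 * (lam - 1) := by
        apply mul_le_mul h4 _ hh0.le one_pos.le
        rw [hlam]
        linarith
      have h6 : 0 ≤ (1 - η) * r := mul_nonneg (by linarith) hr0.le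
      calc (1 - η) ^ 2 * (lam * (r * h)) = (1 - η) * r * ((1 - η) * lam * h) := by ring
        _ ≤ (1 - η) * r * (1 * (lam - 1)) := mul_le_mul_of_nonneg_left h5 h6
        _ = _ := by ring
    have b5 : (1 - η) ^ 2 / r * ((1 - 2 * η) / A ^ r) ≤
        (1 - η) * (lam - 1) / (lam * (r * h)) *
          (1 / (A + h) ^ r - 1 / (A + (m + 1) * h) ^ r) := by
      apply mul_le_mul b4 b3
      · apply div_nonneg (by linarith) (by positivity)
      · exact le_trans (by positivity) b4
    refine le_trans ?_ b5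
    rw [← hA, div_mul_div_comm]
    apply div_le_div_of_nonneg_right _ (by positivity)
    nlinarith [mul_pos hη hη, mul_pos hη (mul_pos hη hη)]

end Pool.Agent.N340.NT
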