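import Pool.Agent.N906.NT.Stm
import Pool.Agent.N340.NT.Primes

/-!
# Project NT (helper906), GLOWN: the generating function over the tuples `D` from below (helper340)
-/

set_option autoImplicit false

namespace Pool.Agent.N340.NT

open Finset Filter Topology
open Pool.Agent.N906.NT

/-- GLOWN, with the primes at least `u ^ (-(r + ε))` -/
def S_GLOWN' : Prop := ∀ (n : ℕ) (Δ : Finset (Finset (Fin n))) (r t : ℕ) (ε : ℝ), Cx Δ r t →
  0 < ε → ε < 1 / 3 →
  ∃ u₀ : ℝ, 0 < u₀ ∧ u₀ < 1 / 2 ∧ ∀ u : ℝ, 0 < u → u < u₀ → ∃ F : Finset (Fin n → ℕ),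
    (∀ D ∈ F, Tp Δ D ∧ Sq D ∧ ∀ p ∈ (pr D).primeFactors, u ^ (-(r + ε)) ≤ (p : ℝ)) ∧
    Real.exp ((1 - 3 * ε) * t / (r * (r * (u * Real.log (1 / u))) ^ r)) ≤
      ∑ D ∈ F, gn D ^ (-u) / (rr D : ℝ)

variable {n : ℕ}

/-- the weight -/
noncomputable def wt (u : ℝ) (D : Fin n → ℕ) : ℝ := gn D ^ (-u) / (rr D : ℝ)

/-- multiplication by a vector of powers of a prime -/
def mp (p : ℕ) (D e : Fin n → ℕ) : Fin n → ℕ := fun i => D i * p ^ e i

theorem mp_zero (p : ℕ) (D : Fin n → ℕ) : mp p D 0 = D := by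
  funext i
  simp [mp]

theorem pr_mp (p : ℕ) (D e : Fin n → ℕ) : pr (mp p D e) = pr D * p ^ ∑ i, e i := by
  unfold pr mp
  rw [prod_mul_distrib, prod_pow_eq_pow_sum]

theorem pr_ne_zero {D : Fin n → ℕ} (hD : ∀ i, 1 ≤ D i) : pr D ≠ 0 := by
  unfold pr
  exact Finset.prod_ne_zero_iff.2 fun i _ => by have := hD i; omega

theorem rr_pos (D : Fin n → ℕ) : 0 < rr D := by
  unfold rr
  exact Finset.prod_pos fun p hp => (Nat.prime_of_mem_primeFactors hp).pos

theorem rr_mp {p : ℕ} (hp : p.Prime) {D e : Fin n → ℕ} (hD : ∀ i, 1 ≤ D i) (hpD : ¬ p ∣ pr D)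
    (he : 1 ≤ ∑ i, e i) : rr (mp p D e) = p * rr D := by
  unfold rr
  rw [pr_mp]
  have h1 : (pr D * p ^ ∑ i, e i).primeFactors = insert p (pr D).primeFactors := by
    rw [Nat.primeFactors_mul (pr_ne_zero hD) (pow_ne_zero _ hp.ne_zero),
      Nat.primeFactors_prime_pow (by omega) hp, Finset.union_comm]
    rfl
  have h2 : p ∉ (pr D).primeFactors := fun h => hpD (Nat.dvd_of_mem_primeFactors h)
  rw [h1, Finset.prod_insert h2]

theorem wt_mp (u : ℝ) {p : ℕ} (hp : p.Prime) {D e : Fin n → ℕ} (hD : ∀ i, 1 ≤ D i)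
    (hpD : ¬ p ∣ pr D) (he : 1 ≤ ∑ i, e i) :
    wt u (mp p D e) = wt u D *
      ((p : ℝ)⁻¹ * ((p : ℝ) ^ (-u))⁻¹ * ∏ i, ((p : ℝ) ^ (-u)) ^ e i) := by
  have hp0 : (0 : ℝ) < p := by exact_mod_cast hp.pos
  have hr0 : (0 : ℝ) < rr D := by exact_mod_cast rr_pos D
  have hD0 : (0 : ℝ) < pr D := by exact_mod_cast Nat.pos_of_ne_zero (pr_ne_zero hD)
  unfold wt gn
  rw [rr_mp hp hD hpD he, pr_mp, prod_pow_eq_pow_sum]
  push_cast
  have h1 : (pr D : ℝ) * (p : ℝ) ^ (∑ i, e i) / (p * rr D) =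
      (pr D : ℝ) / rr D * ((p : ℝ) ^ (∑ i, e i) / p) := by
    field_simp
  rw [h1, Real.mul_rpow (by positivity) (by positivity),
    Real.div_rpow (pow_nonneg hp0.le (∑ i, e i)) hp0.le]
  have h2 : ((p : ℝ) ^ (∑ i, e i)) ^ (-u) = ((p : ℝ) ^ (-u)) ^ (∑ i, e i) := by
    rw [← Real.rpow_natCast, ← Real.rpow_natCast, ← Real.rpow_mul hp0.le, ← Real.rpow_mul hp0.le,
      mul_comm]
  rw [h2]
  have h3 : (0 : ℝ) < (p : ℝ) ^ (-u) := Real.rpow_pos_of_pos hp0 _
  field_simp

/-- the exponent vectors with support `s` -/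
def Es (J : ℕ) (s : Finset (Fin n)) : Finset (Fin n → ℕ) :=
  Fintype.piFinset fun i => if i ∈ s then Ico 2 (J + 2) else {0}

theorem mem_Es {J : ℕ} {s : Finset (Fin n)} {e : Fin n → ℕ} (h : e ∈ Es J s) :
    (∀ i, i ∈ s → 2 ≤ e i) ∧ ∀ i, i ∉ s → e i = 0 := by
  unfold Es at h
  rw [Fintype.mem_piFinset] at h
  constructor
  · intro i hi
    have := h i
    rw [if_pos hi, mem_Ico] at this
    exact this.1
  · intro i hi
    have := h i
    rw [if_neg hi, mem_singleton] at this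
    exact this

/-- the exponent vectors -/
def Ev (Δ : Finset (Finset (Fin n))) (r J : ℕ) : Finset (Fin n → ℕ) :=
  insert 0 ((Δ.filter fun s => s.card = r).biUnion (Es J))

theorem mem_Ev {Δ : Finset (Finset (Fin n))} {r t J : ℕ} (hΔ : Cx Δ r t) {e : Fin n → ℕ}
    (h : e ∈ Ev Δ r J) : (univ.filter fun i => e i ≠ 0) ∈ Δ ∧ (e = 0 ∨ 2 ≤ ∑ i, e i) := by
  unfold Ev at h
  rw [mem_insert, mem_biUnion] at h
  rcases h with rfl | ⟨s, hs, he⟩
  · refine ⟨?_, Or.inl rfl⟩
    have : (univ.filter fun i : Fin n => (0 : Fin n → ℕ) i ≠ 0) = ∅ := by simp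
    rw [this]
    exact hΔ.2.2.1
  · rw [mem_filter] at hs
    obtain ⟨h1, h2⟩ := mem_Es he
    constructor
    · have : (univ.filter fun i => e i ≠ 0) = s := by
        ext i
        rw [mem_filter]
        constructor
        · rintro ⟨-, hi⟩
          by_contra hc
          exact hi (h2 i hc)
        · intro hi
          have := h1 i hi
          exact ⟨mem_univ _, by omega⟩
      rw [this]
      exact hs.1
    · right
      have hne : s.Nonempty := by
        rw [← Finset.card_pos, hs.2]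
        exact hΔ.1
      obtain ⟨i, hi⟩ := hne
      exact (h1 i hi).trans (Finset.single_le_sum (f := e) (fun _ _ => Nat.zero_le _) (mem_univ i))

/-- the local sum -/
noncomputable def loc (u : ℝ) (r t J p : ℕ) : ℝ :=
  1 + t * ((p : ℝ)⁻¹ * ((p : ℝ) ^ (-u))⁻¹ * (∑ j ∈ Ico 2 (J + 2), ((p : ℝ) ^ (-u)) ^ j) ^ r)

theorem sum_Es (a : ℝ) (J : ℕ) (s : Finset (Fin n)) :
    ∑ e ∈ Es J s, ∏ i, a ^ e i = (∑ j ∈ Ico 2 (J + 2), a ^ j) ^ s.card := by
  unfold Es
  rw [← Finset.prod_univ_sum (fun i => if i ∈ s then Ico 2 (J + 2) else {0}) (fun _ j => a ^ j)]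
  have h1 : ∀ i : Fin n, ∑ j ∈ (if i ∈ s then Ico 2 (J + 2) else {0}), a ^ j =
      if i ∈ s then ∑ j ∈ Ico 2 (J + 2), a ^ j else 1 := by
    intro i
    by_cases hi : i ∈ s
    · rw [if_pos hi, if_pos hi]
    · rw [if_neg hi, if_neg hi, sum_singleton, pow_zero]
  rw [Finset.prod_congr rfl fun i _ => h1 i, Finset.prod_ite_mem, univ_inter, prod_const]

theorem sum_Ev (u : ℝ) {Δ : Finset (Finset (Fin n))} {r t : ℕ} (hΔ : Cx Δ r t) (J : ℕ) {p : ℕ}
    (hp : p.Prime) {D : Fin n → ℕ} (hD : ∀ i, 1 ≤ D i) (hpD : ¬ p ∣ pr D) :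
    ∑ e ∈ Ev Δ r J, wt u (mp p D e) = wt u D * loc u r t J p := by
  unfold Ev
  have hd : (Δ.filter fun s => s.card = r : Set (Finset (Fin n))).PairwiseDisjoint (Es J) := by
    intro s _ s' _ hne
    rw [Function.onFun, Finset.disjoint_left]
    intro e he he'
    apply hne
    obtain ⟨h1, h2⟩ := mem_Es he
    obtain ⟨h3, h4⟩ := mem_Es he'
    ext i
    constructor
    · intro hi
      by_contra hc
      have := h1 i hi
      have := h4 i hc
      omega
    · intro hi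
      by_contra hc
      have := h3 i hi
      have := h2 i hc
      omega
  have h0 : (0 : Fin n → ℕ) ∉ (Δ.filter fun s => s.card = r).biUnion (Es J) := by
    intro h
    rw [mem_biUnion] at h
    obtain ⟨s, hs, he⟩ := h
    rw [mem_filter] at hs
    have hne : s.Nonempty := by
      rw [← Finset.card_pos, hs.2]
      exact hΔ.1
    obtain ⟨i, hi⟩ := hne
    have := (mem_Es he).1 i hi
    simp at this
  rw [Finset.sum_insert h0, mp_zero, Finset.sum_biUnion (by
    intro s hs s' hs' hne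
    exact hd (by simpa using hs) (by simpa using hs') hne)]
  have h1 : ∀ s ∈ Δ.filter fun s => s.card = r, ∑ e ∈ Es J s, wt u (mp p D e) =
      wt u D * ((p : ℝ)⁻¹ * ((p : ℝ) ^ (-u))⁻¹ *
        (∑ j ∈ Ico 2 (J + 2), ((p : ℝ) ^ (-u)) ^ j) ^ r) := by
    intro s hs
    rw [mem_filter] at hs
    have hne : s.Nonempty := by
      rw [← Finset.card_pos, hs.2]
      exact hΔ.1
    obtain ⟨i, hi⟩ := hne
    rw [← hs.2, ← sum_Es, Finset.mul_sum, Finset.mul_sum]
    refine Finset.sum_congr rfl fun e he => ?_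
    rw [wt_mp u hp hD hpD]
    have h2 := (mem_Es he).1 i hi
    have h3 := Finset.single_le_sum (f := e) (fun _ _ => Nat.zero_le _) (mem_univ i)
    omega
  rw [Finset.sum_congr rfl h1, Finset.sum_const, hΔ.2.2.2.2.2, nsmul_eq_mul]
  unfold loc
  ring

theorem build (u : ℝ) {Δ : Finset (Finset (Fin n))} {r t : ℕ} (hΔ : Cx Δ r t) (J : ℕ)
    (s : Finset ℕ) (hs : ∀ p ∈ s, p.Prime) :
    ∃ F : Finset (Fin n → ℕ), (∀ D ∈ F, Tp Δ D ∧ Sq D ∧
      ∀ p : ℕ, p.Prime → p ∣ pr D → p ∈ s) ∧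
      ∑ D ∈ F, wt u D = ∏ p ∈ s, loc u r t J p := by
  classical
  induction s using Finset.induction_on with
  | empty =>
    refine ⟨{fun _ => 1}, ?_, ?_⟩
    · intro D hD
      rw [mem_singleton] at hD
      subst hD
      have hpr : pr (fun _ : Fin n => 1) = 1 := by simp [pr]
      refine ⟨⟨fun i => le_rfl, fun p hp => ?_⟩, fun p hp h => ?_, fun p hp h => ?_⟩
      · have : (univ.filter fun i : Fin n => p ∣ (fun _ : Fin n => 1) i) = ∅ := by
          rw [Finset.filter_eq_empty_iff]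
          intro i _ h
          exact hp.one_lt.ne' (Nat.dvd_one.1 h)
        rw [this]
        exact hΔ.2.2.1
      · rw [hpr] at h
        exact absurd (Nat.dvd_one.1 h) hp.one_lt.ne'
      · rw [hpr] at h
        exact absurd (Nat.dvd_one.1 h) hp.one_lt.ne'
    · simp [wt, gn, pr, rr]
  | insert p s hps ih =>
    obtain ⟨F, hF, hsum⟩ := ih fun q hq => hs q (mem_insert_of_mem hq)
    have hp : p.Prime := hs p (mem_insert_self _ _)
    have hpF : ∀ D ∈ F, ¬ p ∣ pr D := fun D hD h => hps ((hF D hD).2.2 p hp h)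
    have hpFi : ∀ D ∈ F, ∀ i, ¬ p ∣ D i := fun D hD i h =>
      hpF D hD (h.trans (Finset.dvd_prod_of_mem D (mem_univ i)))
    have fac : ∀ q a : ℕ, q ≠ 0 → ¬ p ∣ q → (q * p ^ a).factorization p = a := by
      intro q a hq hpq
      rw [Nat.factorization_mul hq (pow_ne_zero _ hp.ne_zero), hp.factorization_pow]
      simp [Nat.factorization_eq_zero_of_not_dvd hpq]
    let φ : (Fin n → ℕ) × (Fin n → ℕ) → Fin n → ℕ := fun y => mp p y.1 y.2
    have hinj : Set.InjOn φ (F ×ˢ Ev Δ r J : Finset ((Fin n → ℕ) × (Fin n → ℕ))) := by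
      rintro ⟨D, e⟩ hx ⟨D', e'⟩ hx' h
      rw [mem_coe, mem_product] at hx hx'
      have g1 := (hF D hx.1).1.1
      have g2 := (hF D' hx'.1).1.1
      have hi : ∀ i, D i * p ^ e i = D' i * p ^ e' i := fun i => congrFun h i
      have he : ∀ i, e i = e' i := by
        intro i
        have := g1 i
        have := g2 i
        rw [← fac (D i) (e i) (by omega) (hpFi D hx.1 i), hi i,
          fac (D' i) (e' i) (by omega) (hpFi D' hx'.1 i)]
      have hDD : ∀ i, D i = D' i := by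
        intro i
        have h1 := hi i
        rw [he i] at h1
        exact Nat.eq_of_mul_eq_mul_right (pow_pos hp.pos _) h1
      exact Prod.ext (funext hDD) (funext he)
    refine ⟨(F ×ˢ Ev Δ r J).image φ, ?_, ?_⟩
    · intro z hz
      obtain ⟨⟨D, e⟩, hx, rfl⟩ := mem_image.1 hz
      rw [mem_product] at hx
      obtain ⟨⟨g1, g2⟩, g3, g4⟩ := hF D hx.1
      have m1 := (mem_Ev hΔ hx.2).1
      have m2 : e = 0 ∨ 2 ≤ ∑ i, e i := (mem_Ev hΔ hx.2).2
      have k1 := hpF D hx.1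
      have k2 := hpFi D hx.1
      refine ⟨⟨fun i => Nat.mul_pos (g1 i) (pow_pos hp.pos _), fun q hq => ?_⟩, ?_, ?_⟩
      · show (univ.filter fun i => q ∣ D i * p ^ e i) ∈ Δ
        rcases eq_or_ne q p with rfl | hne
        · have h1 : (univ.filter fun i => q ∣ D i * q ^ e i) = univ.filter fun i => e i ≠ 0 := by
            apply Finset.filter_congr
            intro i _
            constructor
            · intro h h0
              rw [h0, pow_zero, mul_one] at h
              exact k2 i h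
            · intro h
              exact Dvd.dvd.mul_left (dvd_pow_self q h) _
          rw [h1]
          exact m1
        · have h1 : (univ.filter fun i => q ∣ D i * p ^ e i) = univ.filter fun i => q ∣ D i := by
            apply Finset.filter_congr
            intro i _
            constructor
            · intro h
              rcases (hq.dvd_mul).1 h with h | h
              · exact h
              · exact absurd ((Nat.prime_dvd_prime_iff_eq hq hp).1 (hq.dvd_of_dvd_pow h)) hne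
            · exact fun h => Dvd.dvd.mul_right h _
          rw [h1]
          exact g2 q hq
      · intro q hq h
        show q ^ 2 ∣ pr (mp p D e)
        change q ∣ pr (mp p D e) at h
        rw [pr_mp] at h ⊢
        rcases eq_or_ne q p with rfl | hne
        · rcases m2 with m2 | m2
          · have h0 : ∑ i, e i = 0 := by rw [m2]; simp
            rw [h0, pow_zero, mul_one] at h
            exact absurd h k1
          · exact Dvd.dvd.mul_left (pow_dvd_pow q m2) _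
        · rcases (hq.dvd_mul).1 h with h | h
          · exact Dvd.dvd.mul_right (g3 q hq h) _
          · exact absurd ((Nat.prime_dvd_prime_iff_eq hq hp).1 (hq.dvd_of_dvd_pow h)) hne
      · intro q hq hd
        change q ∣ pr (mp p D e) at hd
        rw [pr_mp] at hd
        rcases (hq.dvd_mul).1 hd with h | h
        · exact mem_insert_of_mem (g4 q hq h)
        · have := (Nat.prime_dvd_prime_iff_eq hq hp).1 (hq.dvd_of_dvd_pow h)
          rw [this]
          exact mem_insert_self _ _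
    · rw [Finset.sum_image hinj, Finset.sum_product, Finset.prod_insert hps, ← hsum,
        Finset.mul_sum]
      refine Finset.sum_congr rfl fun D hD => ?_
      rw [mul_comm, ← sum_Ev u hΔ J hp (hF D hD).1.1 (hpF D hD)]

theorem lim_loc {u : ℝ} (hu : 0 < u) (r t : ℕ) {p : ℕ} (hp : 2 ≤ p) :
    Tendsto (fun J : ℕ => loc u r t J p) atTop
      (𝓝 (1 + t * ((p : ℝ)⁻¹ * ((p : ℝ) ^ (-u))⁻¹ *
        (((p : ℝ) ^ (-u)) ^ 2 / (1 - (p : ℝ) ^ (-u))) ^ r))) := by
  have hN : (1 : ℝ) < p := by exact_mod_cast (by omega : 1 < p)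
  have hN0 : (0 : ℝ) < p := by linarith
  have hq0 : 0 ≤ (p : ℝ) ^ (-u) := Real.rpow_nonneg hN0.le _
  have hq1 : (p : ℝ) ^ (-u) < 1 := Real.rpow_lt_one_of_one_lt_of_neg hN (by linarith)
  obtain ⟨a, ha⟩ : ∃ a, a = (p : ℝ) ^ (-u) := ⟨_, rfl⟩
  unfold loc
  rw [← ha] at hq0 hq1 ⊢
  have h1 := ((hasSum_geometric_of_lt_one hq0 hq1).mul_left (a ^ 2)).tendsto_sum_nat
  have h2 : ∀ J : ℕ, ∑ j ∈ Ico 2 (J + 2), a ^ j = ∑ i ∈ range J, a ^ 2 * a ^ i := by
    intro J
    rw [Finset.sum_Ico_eq_sum_range]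
    simp only [Nat.add_sub_cancel]
    refine Finset.sum_congr rfl fun i _ => ?_
    rw [pow_add]
  simp_rw [h2]
  rw [div_eq_mul_inv]
  exact (((h1.pow r).const_mul _).const_mul _).const_add 1

/-- one term -/
theorem termN {r t : ℕ} (ht : 1 ≤ t) {η δ u : ℝ} {p : ℕ} (hp : p.Prime) (hη : 0 < η)
    (hη1 : η < 1) (hδ : 2 * (r * δ) = η) (hδ1 : δ < 1 / 2) (hu : 0 < u)
    (hM : t / η ≤ p * u ^ r) (hlog : 1 ≤ Real.log p) (hx : u * Real.log p ≤ δ) :
    (1 - η) ^ 2 * (t / u ^ r) * (1 / ((p : ℝ) * Real.log p ^ r)) ≤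
      Real.log (1 + t * ((p : ℝ)⁻¹ * ((p : ℝ) ^ (-u))⁻¹ *
        (((p : ℝ) ^ (-u)) ^ 2 / (1 - (p : ℝ) ^ (-u))) ^ r)) := by
  have hp0 : (0 : ℝ) < p := by exact_mod_cast hp.pos
  have ht0 : (0 : ℝ) < t := by exact_mod_cast ht
  obtain ⟨x, hxd⟩ : ∃ x, x = u * Real.log p := ⟨_, rfl⟩
  have hx0 : 0 < x := by rw [hxd]; positivity
  rw [← hxd] at hx
  have ha : (p : ℝ) ^ (-u) = Real.exp (-x) := by
    rw [Real.rpow_def_of_pos hp0, hxd]
    congr 1
    ring
  rw [ha]
  obtain ⟨a, had⟩ : ∃ a, a = Real.exp (-x) := ⟨_, rfl⟩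
  rw [← had]
  have ha0 : 0 < a := by rw [had]; exact Real.exp_pos _
  have ha1 : a < 1 := by
    rw [had]
    exact (Real.exp_lt_exp.2 (by linarith : -x < 0)).trans_eq Real.exp_zero
  have hb : 1 - a ≤ x := by
    have := Real.add_one_le_exp (-x)
    rw [had]
    linarith
  have hc : 1 - 2 * δ ≤ a ^ 2 := by
    have h1 := Real.add_one_le_exp (-(2 * x))
    have h2 : a ^ 2 = Real.exp (-(2 * x)) := by
      rw [had, ← Real.exp_nat_mul]
      congr 1
      push_cast
      ring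
    rw [h2]
    linarith
  have h1 : (1 - 2 * δ) / x ≤ a ^ 2 / (1 - a) :=
    div_le_div₀ (by positivity) hc (by linarith) hb
  have h2 : (1 - η) / x ^ r ≤ (a ^ 2 / (1 - a)) ^ r := by
    have h3 := one_add_mul_le_pow (a := -(2 * δ)) (by linarith) r
    have h4 : 1 - η ≤ (1 - 2 * δ) ^ r := by
      calc 1 - η = 1 + r * -(2 * δ) := by rw [← hδ]; ring
        _ ≤ (1 + -(2 * δ)) ^ r := h3
        _ = (1 - 2 * δ) ^ r := by ring
    calc (1 - η) / x ^ r ≤ (1 - 2 * δ) ^ r / x ^ r := div_le_div_of_nonneg_right h4 (by positivity)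
      _ = ((1 - 2 * δ) / x) ^ r := (div_pow _ _ _).symm
      _ ≤ _ := pow_le_pow_left₀ (div_nonneg (by linarith) hx0.le) h1 r
  obtain ⟨z, hz⟩ : ∃ z, z = (1 - η) * (t / u ^ r) * (1 / ((p : ℝ) * Real.log p ^ r)) := ⟨_, rfl⟩
  have hlog0 : 0 < Real.log p := by linarith
  have hz0 : 0 < z := by
    rw [hz]
    have : 0 < 1 - η := by linarith
    positivity
  have hz1 : z ≤ t * ((p : ℝ)⁻¹ * a⁻¹ * (a ^ 2 / (1 - a)) ^ r) := by
    have h3 : z = t * ((p : ℝ)⁻¹ * 1 * ((1 - η) / x ^ r)) := by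
      rw [hz, hxd, mul_pow]
      field_simp
    rw [h3]
    apply mul_le_mul_of_nonneg_left _ ht0.le
    apply mul_le_mul _ h2 (div_nonneg (by linarith) (by positivity)) (by positivity)
    apply mul_le_mul_of_nonneg_left _ (by positivity)
    exact (one_le_inv₀ ha0).2 ha1.le
  have hz2 : z ≤ η := by
    have h3 : z ≤ t / (p * u ^ r) := by
      have h4 : z = (1 - η) * (1 / Real.log p ^ r) * (t / (p * u ^ r)) := by
        rw [hz]
        field_simp
      rw [h4]
      have h5 : (1 - η) * (1 / Real.log p ^ r) ≤ 1 * 1 := by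
        apply mul_le_mul (by linarith) _ (by positivity) one_pos.le
        rw [div_le_one (by positivity)]
        exact one_le_pow₀ hlog
      rw [one_mul] at h5
      exact mul_le_of_le_one_left (by positivity) h5
    refine h3.trans ?_
    rw [div_le_iff₀ (by positivity)]
    rw [div_le_iff₀ hη] at hM
    linarith
  have h7 : (1 - η) * z ≤ Real.log (1 + z) := by
    have h8 := Real.one_sub_inv_le_log_of_pos (x := 1 + z) (by linarith)
    have h9 : (1 - z) * z ≤ 1 - (1 + z)⁻¹ := by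
      have h10 : 1 - (1 + z)⁻¹ = z / (1 + z) := by
        field_simp
        ring
      rw [h10, le_div_iff₀ (by linarith)]
      nlinarith [mul_pos hz0 hz0, mul_pos hz0 (mul_pos hz0 hz0)]
    have h11 : (1 - η) * z ≤ (1 - z) * z :=
      mul_le_mul_of_nonneg_right (by linarith) hz0.le
    linarith
  calc (1 - η) ^ 2 * (t / u ^ r) * (1 / ((p : ℝ) * Real.log p ^ r)) = (1 - η) * z := by
        rw [hz]
        ring
    _ ≤ Real.log (1 + z) := h7
    _ ≤ _ := Real.log_le_log (by linarith) (by linarith)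

/-- **GLOWN.** The generating function over the tuples `D` from below. -/
theorem glown : S_GLOWN' := by
  classical
  intro n Δ r t ε hΔ hε hε3
  have hr : 1 ≤ r := hΔ.1
  have ht : 1 ≤ t := hΔ.2.1
  have hr1 : (1 : ℝ) ≤ r := by exact_mod_cast hr
  have hr0 : (0 : ℝ) < r := by linarith
  have ht0 : (0 : ℝ) < t := by exact_mod_cast ht
  obtain ⟨η, hηd⟩ : ∃ η, η = ε / 12 := ⟨_, rfl⟩
  have hη : 0 < η := by rw [hηd]; positivity
  have hη1 : η < 1 / 36 := by rw [hηd]; linarith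
  obtain ⟨δ, hδd⟩ : ∃ δ, δ = η / (2 * r) := ⟨_, rfl⟩
  have hδ0 : 0 < δ := by rw [hδd]; positivity
  have hδ : 2 * (r * δ) = η := by
    rw [hδd]
    field_simp
  have hδ1 : δ < 1 / 2 := by
    have : δ ≤ r * δ := le_mul_of_one_le_left hδ0.le hr1
    linarith
  obtain ⟨u₀, hu₀, hu₀2, h1⟩ := primes_low hr (ρ := r + ε) (η := η) (δ := δ) (M := t / η)
    (by linarith) hη (by linarith) hδ0 (by positivity)
  refine ⟨u₀, hu₀, hu₀2, fun u hu huu => ?_⟩
  obtain ⟨s, hs1, hs2⟩ := h1 u hu huu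
  have hlog : 0 < Real.log (1 / u) := Real.log_pos (by
    rw [lt_div_iff₀ hu]
    linarith)
  obtain ⟨f, hf⟩ : ∃ f : ℕ → ℝ, f = fun p : ℕ => 1 + t * ((p : ℝ)⁻¹ * ((p : ℝ) ^ (-u))⁻¹ *
        (((p : ℝ) ^ (-u)) ^ 2 / (1 - (p : ℝ) ^ (-u))) ^ r) := ⟨_, rfl⟩
  have hpos : ∀ p ∈ s, 0 < f p := by
    intro p hp
    have hN : (1 : ℝ) < p := by exact_mod_cast ((hs1 p hp).1).one_lt
    have hN0 : (0 : ℝ) < p := by linarith
    have hq0 : 0 < (p : ℝ) ^ (-u) := Real.rpow_pos_of_pos hN0 _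
    have hq1 : (p : ℝ) ^ (-u) < 1 := Real.rpow_lt_one_of_one_lt_of_neg hN (by linarith)
    have : 0 < 1 - (p : ℝ) ^ (-u) := by linarith
    rw [hf]
    positivity
  have hbig : Real.exp ((1 - 3 * ε) * t / (r * (r * (u * Real.log (1 / u))) ^ r)) <
      ∏ p ∈ s, f p := by
    have h3 : ∏ p ∈ s, f p = Real.exp (∑ p ∈ s, Real.log (f p)) := by
      rw [Real.exp_sum]
      exact Finset.prod_congr rfl fun p hp => (Real.exp_log (hpos p hp)).symm
    rw [h3]
    refine Real.exp_lt_exp.2 ?_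
    have h4 : (1 - η) ^ 2 * (t / u ^ r) * ∑ p ∈ s, 1 / ((p : ℝ) * Real.log p ^ r) ≤
        ∑ p ∈ s, Real.log (f p) := by
      rw [Finset.mul_sum]
      refine Finset.sum_le_sum fun p hp => ?_
      obtain ⟨g0, -, g2, g3, g4⟩ := hs1 p hp
      rw [hf]
      exact termN ht g0 hη (by linarith) hδ hδ1 hu g2 g4 g3
    refine lt_of_lt_of_le ?_ h4
    refine lt_of_lt_of_le ?_ (mul_le_mul_of_nonneg_left hs2 (by positivity))
    obtain ⟨l, hl⟩ : ∃ l, l = Real.log (1 / u) := ⟨_, rfl⟩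
    rw [← hl] at hlog ⊢
    have h5 : 1 - ε ≤ ((r : ℝ) / (r + ε)) ^ r := by
      have h6 := one_add_mul_le_pow (a := -(ε / (r + ε))) (by
        have : ε / (r + ε) ≤ 1 := by
          rw [div_le_one (by linarith)]
          linarith
        linarith) r
      have h7 : (1 : ℝ) + -(ε / (r + ε)) = r / (r + ε) := by
        field_simp
        ring
      rw [h7] at h6
      have h8 : r * (ε / (r + ε)) ≤ ε := by
        rw [← mul_div_assoc, div_le_iff₀ (by linarith)]
        nlinarith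
      linarith
    have h6 : (1 - η) ^ 2 * (t / u ^ r) * ((1 - 4 * η) / (r * ((r + ε) * l) ^ r)) =
        ((1 - η) ^ 2 * (1 - 4 * η)) * ((r : ℝ) / (r + ε)) ^ r *
          (t / (r * (r * (u * l)) ^ r)) := by
      have : (r : ℝ) + ε ≠ 0 := by linarith
      rw [mul_pow, mul_pow, mul_pow, div_pow]
      field_simp
    rw [h6, mul_div_assoc]
    apply mul_lt_mul_of_pos_right _ (by positivity)
    have h7 : 1 - ε / 2 ≤ (1 - η) ^ 2 * (1 - 4 * η) := by
      have : ε / 2 = 6 * η := by rw [hηd]; ring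
      rw [this]
      nlinarith [mul_pos hη hη, mul_pos hη (mul_pos hη hη)]
    calc 1 - 3 * ε < (1 - ε / 2) * (1 - ε) := by nlinarith
      _ ≤ (1 - η) ^ 2 * (1 - 4 * η) * ((r : ℝ) / (r + ε)) ^ r :=
        mul_le_mul h7 h5 (by linarith) (by linarith)
  have hlim := tendsto_finsetProd s fun p (hp : p ∈ s) => lim_loc hu r t (hs1 p hp).1.two_le
  rw [hf] at hbig
  obtain ⟨J, hJ⟩ := (hlim.eventually (lt_mem_nhds hbig)).exists
  obtain ⟨F, hF, hsum⟩ := build u hΔ J s fun p hp => (hs1 p hp).1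
  refine ⟨F, fun D hD => ?_, ?_⟩
  · obtain ⟨g1, g2, g3⟩ := hF D hD
    refine ⟨g1, g2, fun p hp => ?_⟩
    exact (hs1 p (g3 p (Nat.prime_of_mem_primeFactors hp) (Nat.dvd_of_mem_primeFactors hp))).2.1
  · refine hJ.le.trans (le_of_eq ?_)
    rw [← hsum]
    rfl

end Pool.Agent.N340.NT
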